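import Pool.Agent.R280.SemiProj

/-!
A Banach lattice is semiprojective if and only if it is `ℓ`-open.
-/

set_option autoImplicit false

open Pool.Agent.R280.BLat

universe u v

namespace Pool.Agent.Results.MP_9b1016_an.SemiprojectiveIffLOpen

/-- For every Banach lattice `A`: (Q1) if `A` is semiprojective, then `A` is `ℓ`-open, and (Q2) if
`A` is `ℓ`-open, then `A` is semiprojective. -/
theorem result (A : Type u) [NormedAddCommGroup A] [NormedSpace ℝ A] [Lattice A]
    [BanachLattice A] :
    (IsSemiprojective.{u, v} A → IsLOpen.{u, v} A) ∧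
      (IsLOpen.{u, v} A → IsSemiprojective.{u, v} A) :=
  ⟨fun h => h.isLOpen, fun h => h.isSemiprojective⟩

end Pool.Agent.Results.MP_9b1016_an.SemiprojectiveIffLOpen
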